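import Pool.Agent.helper50.BS.SpecT

/-! # Module bs:TA4 -/

set_option autoImplicit false

open Finset

open scoped Classical

noncomputable section

namespace Pool.Agent.BS

/-- an edge of `A` without its ends in `A` is cut -/
theorem TA4_cut (g : IG) (W : Finset ℕ) (A : Finset (ℕ ⊕ ℕ)) (hA : A ⊆ g.X0 W)
    (hv : ∀ v, Sum.inl v ∉ A) (e : ℕ) (he : Sum.inr e ∈ A) : g.cW W A ≠ 0 := by
  have h1 : e ∈ g.EW W := by
    have := hA he
    unfold IG.X0 at this
    rwa [Finset.inr_mem_disjSum] at this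
  unfold IG.EW at h1
  rw [Finset.mem_filter] at h1
  intro h0
  unfold IG.cW at h0
  rw [Finset.sum_eq_zero_iff] at h0
  have h2 := h0 e h1.1
  rcases h1.2 with h | h
  · have h3 : g.s e ∈ W ∧ ¬ (Sum.inl (g.s e) ∈ A ↔ Sum.inr e ∈ A) :=
      ⟨h, fun h' => hv _ (h'.mpr he)⟩
    rw [if_pos h3] at h2
    omega
  · have h3 : g.t e ∈ W ∧ ¬ (Sum.inl (g.t e) ∈ A ↔ Sum.inr e ∈ A) :=
      ⟨h, fun h' => hv _ (h'.mpr he)⟩
    rw [if_pos h3] at h2
    omega

/-- TA4 -/
theorem TA4 : TA4_stmt := by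
  intro g R _ W β x y u hx hy A hA hne
  have hnil : ∀ (z : R) (n : ℕ), IsNilpotent z → n ≠ 0 → z ^ n ∈ nilradical R := fun z n hz hn =>
    Ideal.pow_mem_of_mem _ (mem_nilradical.mpr hz) n (Nat.pos_of_ne_zero hn)
  unfold om
  rw [← mem_nilradical]
  by_cases hv : ∃ v, Sum.inl v ∈ A
  · obtain ⟨v, hv⟩ := hv
    have h1 : v ∈ W := by
      have := hA hv
      unfold IG.X0 at this
      rwa [Finset.inl_mem_disjSum] at this
    have h2 : nW W A ≠ 0 := by
      unfold nW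
      rw [← Nat.pos_iff_ne_zero, Finset.card_pos]
      exact ⟨v, Finset.mem_inter.mpr ⟨Finset.mem_toLeft.mpr hv, h1⟩⟩
    exact Ideal.mul_mem_right _ _ (Ideal.mul_mem_right _ _ (hnil x _ hx h2))
  · push Not at hv
    obtain ⟨z, hz⟩ := hne
    rcases z with v | e
    · exact absurd hz (hv v)
    · exact Ideal.mul_mem_right _ _ (Ideal.mul_mem_left _ _
        (hnil y _ hy (TA4_cut g W A hA hv e hz)))

end Pool.Agent.BS
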