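import Pool.Agent.helper50.BS.SpecT

/-! # Module bs:TD3 -/

set_option autoImplicit false

open Finset

open scoped Classical

noncomputable section

namespace Pool.Agent.BS

/-- alternating sum over an interval of subsets -/
theorem TD3_alt {R : Type} [CommRing R] (T P : Finset ℕ) :
    ∑ P' ∈ P.powerset, (if T ⊆ P' then (-1 : R) ^ (P \ P').card else 0) =
      if T = P then 1 else 0 := by
  by_cases hTP : T ⊆ P
  · have h1 : ∑ P' ∈ P.powerset, (if T ⊆ P' then (-1 : R) ^ (P \ P').card else 0) =
        ∑ Q ∈ (P \ T).powerset, (-1 : R) ^ Q.card := by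
      rw [← Finset.sum_filter]
      refine Finset.sum_nbij' (fun P' => P \ P') (fun Q => P \ Q) ?_ ?_ ?_ ?_ ?_
      · intro P' h
        rw [Finset.mem_filter, Finset.mem_powerset] at h
        rw [Finset.mem_powerset]
        exact Finset.sdiff_subset_sdiff (Finset.Subset.refl P) h.2
      · intro Q h
        rw [Finset.mem_powerset] at h
        rw [Finset.mem_filter, Finset.mem_powerset]
        refine ⟨Finset.sdiff_subset, fun e he => ?_⟩
        rw [Finset.mem_sdiff]
        exact ⟨hTP he, fun heQ => (Finset.mem_sdiff.mp (h heQ)).2 he⟩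
      · intro P' h
        rw [Finset.mem_filter, Finset.mem_powerset] at h
        exact Finset.sdiff_sdiff_eq_self h.1
      · intro Q h
        rw [Finset.mem_powerset] at h
        exact Finset.sdiff_sdiff_eq_self (h.trans Finset.sdiff_subset)
      · intro P' _
        rfl
    have h3 : ∑ Q ∈ (P \ T).powerset, (-1 : R) ^ Q.card =
        ((∑ Q ∈ (P \ T).powerset, (-1 : ℤ) ^ Q.card : ℤ) : R) := by
      push_cast
      rfl
    rw [h1, h3, Finset.sum_powerset_neg_one_pow_card]
    by_cases hEq : T = P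
    · subst hEq
      simp
    · have h4 : P \ T ≠ ∅ := fun h =>
        hEq (Finset.Subset.antisymm hTP (Finset.sdiff_eq_empty_iff_subset.mp h))
      rw [if_neg h4, if_neg hEq]
      simp
  · rw [if_neg (fun h : T = P => hTP (by rw [h]))]
    refine Finset.sum_eq_zero fun P' hP' => ?_
    rw [Finset.mem_powerset] at hP'
    rw [if_neg (fun h => hTP (h.trans hP'))]

/-- TD3 -/
theorem TD3 : TD3_stmt := by
  intro g R _ W β P w hβ hP
  have hiff : ∀ (A : Finset (ℕ ⊕ ℕ)) (P' : Finset ℕ),
      (A.toRight ∩ β ⊆ β \ (g.dl W \ P')) ↔ (A.toRight ∩ g.dl W ⊆ P') := by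
    intro A P'
    constructor
    · intro h e he
      rw [Finset.mem_inter] at he
      have h1 := h (Finset.mem_inter.mpr ⟨he.1, hβ he.2⟩)
      rw [Finset.mem_sdiff, Finset.mem_sdiff] at h1
      by_contra hc
      exact h1.2 ⟨he.2, hc⟩
    · intro h e he
      rw [Finset.mem_inter] at he
      rw [Finset.mem_sdiff, Finset.mem_sdiff]
      exact ⟨he.2, fun h1 => h1.2 (h (Finset.mem_inter.mpr ⟨he.1, h1.1⟩))⟩
  have e1 : ∀ P' ∈ P.powerset, (-1 : R) ^ (P \ P').card *
        (∑ A ∈ (g.X0 W).powerset with A.toRight ∩ β ⊆ β \ (g.dl W \ P'), w A) =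
      ∑ A ∈ (g.X0 W).powerset, (if A.toRight ∩ g.dl W ⊆ P' then (-1 : R) ^ (P \ P').card else 0) *
        w A := by
    intro P' _
    rw [Finset.sum_filter, Finset.mul_sum]
    refine Finset.sum_congr rfl fun A _ => ?_
    by_cases h : A.toRight ∩ g.dl W ⊆ P'
    · rw [if_pos h, if_pos ((hiff A P').mpr h)]
    · rw [if_neg h, if_neg (fun h' => h ((hiff A P').mp h')), mul_zero, zero_mul]
  rw [Finset.sum_congr rfl e1, Finset.sum_comm, Finset.sum_filter]
  refine Finset.sum_congr rfl fun A _ => ?_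
  rw [← Finset.sum_mul, TD3_alt]
  by_cases h : A.toRight ∩ g.dl W = P
  · rw [if_pos h, if_pos h, one_mul]
  · rw [if_neg h, if_neg h, zero_mul]

end Pool.Agent.BS
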