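import Pool.Agent.helper50.BS.SpecU

/-! # Module bs:UC6 -/

set_option autoImplicit false

open scoped Classical

noncomputable section

namespace Pool.Agent.helper50.BT

open Pool.Agent.helper81.PL

/-- UC6 -/
theorem UC6 (hUB1 : UB1_stmt) (hUA1 : UA1_stmt) (hUA2 : UA2_stmt) (hUA3 : UA3_stmt)
    (hUA4 : UA4_stmt) (hA8 : helper81.BS.A8_stmt) (hTC3 : BS.TC3_stmt) : UC6_stmt := by
  intro N M n k E W PP Tl h T hyp
  obtain ⟨a1, a2, a3, a4, a5⟩ := hUA1 n E h
  have hpart := hyp.tight.1.1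
  obtain ⟨-, b2, b3⟩ := hUA2 n E W h PP hpart
  obtain ⟨β, hβ⟩ : ∃ β, β = helper81.BS.beta n E W PP := ⟨_, rfl⟩
  have hβE : β ⊆ E := by
    rw [hβ]
    exact (Finset.filter_subset _ _).trans (Finset.filter_subset _ _)
  have hN : n * n + n + 1 + 4 ^ (2 * k) + 2 ^ (6 * k + 1) + (n + 1) * (k + 1) * (3 * k + 1) + M ≤ N :=
    hyp.big
  have hN' : ∀ p q r : ℕ, n * n + n + 1 + p + q + r + M ≤ N →
      n * n + n + p ≤ N ∧ q ≤ N ∧ n * n ≤ N := by
    intro p q r h
    omega
  obtain ⟨hN1, hN2, hN3⟩ := hN' _ _ _ hN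
  have hlt : ∀ e ∈ β, e < N := fun e he => lt_of_lt_of_le (a5 e (hβE he)) hN3
  by_cases hs : β.card ≤ 6 * k
  · -- small `beta`
    have hQ : QQ N n E W k PP = (psub N β).filter (fun Q => !eqb Q ∅) := by
      unfold QQ
      rw [← hβ]
      have h1 : leb β.card (6 * k) = true := decide_eq_true hs
      rw [h1]
      rfl
    have hp : 2 ^ β.card ≤ N := by
      have h1 : 2 ^ β.card ≤ 2 ^ (6 * k + 1) := Nat.pow_le_pow_right (by norm_num) (by omega)
      exact h1.trans hN2
    obtain ⟨p1, p2⟩ := hUB1 N β hlt hp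
    have hmem : ∀ Q, Q ∈ QQ N n E W k PP ↔ Q ⊆ β ∧ Q ≠ ∅ := by
      intro Q
      rw [hQ, List.mem_filter, p2]
      simp [eqb]
    refine ⟨?_, ?_, ?_⟩
    · rw [hQ]
      exact p1.filter _
    · intro Q hQm
      rw [hmem] at hQm
      rw [← hβ]
      refine ⟨hQm.1, Finset.nonempty_iff_ne_empty.mpr hQm.2, ?_⟩
      have := Finset.card_le_card hQm.1
      omega
    · intro K _ _ _ _ hne
      rw [hmem, hβ]
      exact ⟨Finset.inter_subset_right, Finset.nonempty_iff_ne_empty.mp hne⟩
  · -- large `beta`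
    have hs' : 6 * k < β.card := Nat.lt_of_not_le hs
    have hQ : QQ N n E W k PP = (β.sort.map (fun e => ({e} : Finset ℕ)) ++
      (helper81.BS.allImp N n E W (2 * k)).flatMap (fun R =>
        (psub N (helper81.BS.tch n β R)).filter (fun Q => !eqb Q ∅))).dedup := by
      unfold QQ
      rw [← hβ]
      have h1 : leb β.card (6 * k) = false := decide_eq_false hs
      rw [h1]
      rfl
    obtain ⟨-, -, c3, c4⟩ := hA8 N n E W (2 * k) hN1 h hyp.sub
    have htch : ∀ R, helper81.BS.tch n β R ⊆ β := fun R => Finset.filter_subset _ _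
    have hcard : ∀ R ∈ helper81.BS.allImp N n E W (2 * k),
        (helper81.BS.tch n β R).card ≤ 2 * k := by
      intro R hR
      obtain ⟨d1, d2, -, d4⟩ := c3 R hR
      have h1 := hyp.tight.2 R d1 d2 d4
      rw [← hβ] at h1
      exact h1.trans d4
    have hps : ∀ R ∈ helper81.BS.allImp N n E W (2 * k), ∀ Q,
        Q ∈ psub N (helper81.BS.tch n β R) ↔ Q ⊆ helper81.BS.tch n β R := by
      intro R hR
      refine (hUB1 N (helper81.BS.tch n β R) (fun e he => hlt e (htch R he)) ?_).2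
      have h1 : 2 ^ (helper81.BS.tch n β R).card ≤ 2 ^ (6 * k + 1) :=
        Nat.pow_le_pow_right (by norm_num) (by have := hcard R hR; omega)
      exact h1.trans hN2
    have hmem : ∀ Q, Q ∈ QQ N n E W k PP ↔ (∃ e ∈ β, Q = {e}) ∨
        ∃ R ∈ helper81.BS.allImp N n E W (2 * k), Q ⊆ helper81.BS.tch n β R ∧ Q ≠ ∅ := by
      intro Q
      rw [hQ, List.mem_dedup, List.mem_append, List.mem_map, List.mem_flatMap]
      constructor
      · rintro (⟨e, he, rfl⟩ | ⟨R, hR, hQR⟩)
        · exact Or.inl ⟨e, (Finset.mem_sort _).mp he, rfl⟩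
        · rw [List.mem_filter, hps R hR] at hQR
          refine Or.inr ⟨R, hR, hQR.1, ?_⟩
          simpa [eqb] using hQR.2
      · rintro (⟨e, he, rfl⟩ | ⟨R, hR, hQR, hne⟩)
        · exact Or.inl ⟨e, (Finset.mem_sort _).mpr he, rfl⟩
        · refine Or.inr ⟨R, hR, ?_⟩
          rw [List.mem_filter, hps R hR]
          refine ⟨hQR, ?_⟩
          simpa [eqb] using hne
    refine ⟨?_, ?_, ?_⟩
    · rw [hQ]
      exact List.nodup_dedup _
    · intro Q hQm
      rw [hmem] at hQm
      rw [← hβ]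
      rcases hQm with ⟨e, he, rfl⟩ | ⟨R, hR, hQR, hne⟩
      · refine ⟨Finset.singleton_subset_iff.mpr he, Finset.singleton_nonempty e, ?_⟩
        rw [Finset.card_singleton]
        omega
      · refine ⟨hQR.trans (htch R), Finset.nonempty_iff_ne_empty.mpr hne, ?_⟩
        have h1 := Finset.card_le_card hQR
        have h2 := hcard R hR
        omega
    · intro K hK hconn hcW hc3 hne
      have hdl : ((ig n E h).dl W).card ≤ 2 * k := by
        rw [a1]
        exact hyp.dW
      have key := hTC3 (ig n E h) k PP.toFinset W K (helper81.BS.allImp N n E W (2 * k)) b2 hdl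
        (hUA3 n k E W h PP hyp.tight) ?_ ?_ hK hconn hcW ?_ ?_ ?_
      · rw [hmem, ← hβ]
        rw [b3, ← hβ] at key
        rcases key with ⟨e, he, hke⟩ | ⟨R, hR, hsub, -⟩
        · exact Or.inl ⟨e, he, hke⟩
        · refine Or.inr ⟨R, hR, ?_, ?_⟩
          · refine hsub.trans (fun e he => ?_)
            rw [Finset.mem_filter] at he
            unfold helper81.BS.tch
            rw [Finset.mem_filter]
            refine ⟨he.1, ?_⟩
            have h1 : e / n ∈ R ∨ e % n ∈ R := he.2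
            simpa [fmem] using h1
          · rw [hβ]
            exact Finset.nonempty_iff_ne_empty.mp hne
      · intro K1 hK1 hK1W hK1c hK1d
        obtain ⟨v, hv⟩ := hUA4 n E K1 h hK1c
        rw [a1] at hK1d
        obtain ⟨R, hR, hKR, -⟩ := c4 v K1 hK1 hK1W hv hK1d
        exact ⟨R, hR, hKR⟩
      · intro R hR
        obtain ⟨d1, d2, -, d4⟩ := c3 R hR
        refine ⟨d1, d2, ?_⟩
        rw [a1]
        exact d4
      · rw [b3]
        exact hc3
      · rw [b3, ← hβ]
        exact hs'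
      · rw [b3]
        exact hne

end Pool.Agent.helper50.BT
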