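import Pool.Agent.helper73.BS.Spec

/-!
# bs:GE (generic solution of `exp X m u ≡ u`)
-/

set_option autoImplicit false

namespace Pool.Agent.BS

open Matrix Module Pool.Agent.UG

theorem GE_pow_fil {n : ℕ} {W : ℕ → Submodule ℚ (VQ n)} {Y : MQ n} (hY : Y ∈ fil W 1) :
    ∀ i : ℕ, Y ^ i ∈ fil W i := by
  intro i
  induction i with
  | zero =>
    intro a w hw
    rw [pow_zero, Matrix.one_mulVec]
    exact hw
  | succ i ih =>
    rw [pow_succ]
    exact fil_mul ih hY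

theorem GE_fil_le {n : ℕ} {W : ℕ → Submodule ℚ (VQ n)} (hW : Monotone W) {i j : ℕ} (hij : i ≤ j) :
    fil W j ≤ fil W i := by
  intro X hX a w hw
  exact hW (by omega) (hX a w hw)

/-- `exp Y - 1` lowers the flag -/
theorem GE_exp_sub_one {n : ℕ} {W : ℕ → Submodule ℚ (VQ n)} (hW : Monotone W) {Y : MQ n}
    (hY : Y ∈ fil W 1) (hn : IsNilpotent Y) : IsNilpotent.exp Y - 1 ∈ fil W 1 := by
  obtain ⟨N, hN⟩ := hn
  have h1 : Y ^ (N + 1) = 0 := by rw [pow_succ, hN, zero_mul]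
  rw [IsNilpotent.exp_eq_sum h1, Finset.sum_range_succ']
  simp only [Nat.factorial_zero, Nat.cast_one, inv_one, pow_zero, one_smul, add_sub_cancel_right]
  refine Submodule.sum_mem _ fun i _ => Submodule.smul_mem _ _ ?_
  exact GE_fil_le hW (by omega) (GE_pow_fil hY (i + 1))

/-- `exp Y v ≡ v + Y v` if `Y v ∈ W (j + 1)` -/
theorem GE_exp_apply {n : ℕ} {W : ℕ → Submodule ℚ (VQ n)} (hW : Monotone W) {Y : MQ n}
    (hY : Y ∈ fil W 1) (hn : IsNilpotent Y) {j : ℕ} {v : VQ n} (hv : Y *ᵥ v ∈ W (j + 1)) :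
    IsNilpotent.exp Y *ᵥ v - v - Y *ᵥ v ∈ W j := by
  obtain ⟨N, hN⟩ := hn
  have h1 : Y ^ (N + 2) = 0 := by rw [pow_add, hN, zero_mul]
  have h2 : IsNilpotent.exp Y = ∑ i ∈ Finset.range N, (((i + 2).factorial : ℚ)⁻¹) • Y ^ (i + 2)
      + Y + 1 := by
    rw [IsNilpotent.exp_eq_sum h1, Finset.sum_range_succ', Finset.sum_range_succ']
    simp only [Nat.factorial_zero, Nat.cast_one, inv_one, pow_zero, one_smul, zero_add,
      Nat.factorial_one, pow_one]
  have h3 : IsNilpotent.exp Y *ᵥ v - v - Y *ᵥ v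
      = (∑ i ∈ Finset.range N, (((i + 2).factorial : ℚ)⁻¹) • Y ^ (i + 2)) *ᵥ v := by
    rw [h2, Matrix.add_mulVec, Matrix.add_mulVec, Matrix.one_mulVec]
    abel
  rw [h3, Matrix.sum_mulVec]
  refine Submodule.sum_mem _ fun i _ => ?_
  rw [Matrix.smul_mulVec]
  refine Submodule.smul_mem _ _ ?_
  have h4 : Y ^ (i + 2) *ᵥ v = Y ^ (i + 1) *ᵥ (Y *ᵥ v) := by
    rw [Matrix.mulVec_mulVec, ← pow_succ]
  rw [h4]
  have h5 := GE_fil_le hW (Nat.le_add_left 1 i) (GE_pow_fil hY (i + 1)) (j + 1) _ hv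
  simpa using h5

/-- polynomials in `E` preserve the flag -/
theorem GE_aeval_fil {n : ℕ} {W : ℕ → Submodule ℚ (VQ n)} (hW : Monotone W) {E : MQ n}
    (hE : E ∈ fil W 1) (Q : Polynomial ℚ) : Polynomial.aeval E Q ∈ fil W 0 := by
  rw [Polynomial.aeval_eq_sum_range]
  refine Submodule.sum_mem _ fun i _ => Submodule.smul_mem _ _ ?_
  exact GE_fil_le hW (Nat.zero_le i) (GE_pow_fil hE i)

/-- `Y w ≡ exp Y w - w` if `exp Y w - w ∈ W (j + 1)` -/
theorem GE_log_apply (hLG : UG.LG_stmt) {n : ℕ} {W : ℕ → Submodule ℚ (VQ n)} (hW : Monotone W)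
    {Y : MQ n} (hY : Y ∈ fil W 1) (hn : IsNilpotent Y) {j : ℕ} {w : VQ n}
    (hw : IsNilpotent.exp Y *ᵥ w - w ∈ W (j + 1)) :
    Y *ᵥ w - (IsNilpotent.exp Y *ᵥ w - w) ∈ W j := by
  obtain ⟨P, ⟨Q, hQ⟩, -, hP⟩ := hLG n
  set E : MQ n := IsNilpotent.exp Y - 1 with hE
  have hEf : E ∈ fil W 1 := GE_exp_sub_one hW hY hn
  have h1 : IsNilpotent.exp Y *ᵥ w - w = E *ᵥ w := by
    rw [hE, Matrix.sub_mulVec, Matrix.one_mulVec]
  have h2 : Y = E + Polynomial.aeval E Q * (E * E) := by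
    have h3 := hP Y hn
    have h4 : P = Polynomial.X + Q * Polynomial.X ^ 2 := by
      rw [mul_comm Q, ← hQ]; ring
    rw [← hE, h4, map_add, map_mul, map_pow, Polynomial.aeval_X, pow_two] at h3
    exact h3.symm
  have h5 : Y *ᵥ w = E *ᵥ w + Polynomial.aeval E Q *ᵥ (E *ᵥ (E *ᵥ w)) := by
    conv_lhs => rw [h2]
    rw [Matrix.add_mulVec, Matrix.mulVec_mulVec, Matrix.mulVec_mulVec, mul_assoc]
  rw [h1] at hw ⊢
  rw [h5, add_sub_cancel_left]
  have h6 : E *ᵥ (E *ᵥ w) ∈ W j := by simpa using hEf (j + 1) _ hw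
  simpa using GE_aeval_fil hW hEf Q j _ h6

/-- the key congruence -/
theorem GE_key (hLG : UG.LG_stmt) {n : ℕ} {W : ℕ → Submodule ℚ (VQ n)} (hW : Monotone W)
    {Y : MQ n} (hY : Y ∈ fil W 1) (hn : IsNilpotent Y) {j : ℕ} {u w : VQ n}
    (hwu : w - u ∈ W (j + 1)) :
    IsNilpotent.exp Y *ᵥ w - u ∈ W j ↔ Y *ᵥ u - (u - w) ∈ W j := by
  have hYwu : Y *ᵥ w - Y *ᵥ u ∈ W j := by
    rw [← Matrix.mulVec_sub]
    simpa using hY (j + 1) _ hwu
  constructor
  · intro h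
    have h1 : IsNilpotent.exp Y *ᵥ w - w ∈ W (j + 1) := by
      have h2 := (W (j + 1)).sub_mem (hW (Nat.le_succ j) h) hwu
      have h3 : IsNilpotent.exp Y *ᵥ w - u - (w - u) = IsNilpotent.exp Y *ᵥ w - w := by abel
      rwa [h3] at h2
    have h4 := GE_log_apply hLG hW hY hn h1
    have h5 := (W j).add_mem ((W j).sub_mem h4 hYwu) h
    have h6 : Y *ᵥ w - (IsNilpotent.exp Y *ᵥ w - w) - (Y *ᵥ w - Y *ᵥ u)
        + (IsNilpotent.exp Y *ᵥ w - u) = Y *ᵥ u - (u - w) := by abel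
    rwa [h6] at h5
  · intro h
    have h1 : Y *ᵥ w ∈ W (j + 1) := by
      have h2 := (W (j + 1)).sub_mem ((W (j + 1)).add_mem (hW (Nat.le_succ j) hYwu)
        (hW (Nat.le_succ j) h)) hwu
      have h3 : Y *ᵥ w - Y *ᵥ u + (Y *ᵥ u - (u - w)) - (w - u) = Y *ᵥ w := by abel
      rwa [h3] at h2
    have h4 := GE_exp_apply hW hY hn h1
    have h5 := (W j).add_mem ((W j).add_mem h4 hYwu) h
    have h6 : IsNilpotent.exp Y *ᵥ w - w - Y *ᵥ w + (Y *ᵥ w - Y *ᵥ u) + (Y *ᵥ u - (u - w))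
        = IsNilpotent.exp Y *ᵥ w - u := by abel
    rwa [h6] at h5

/-- linear forms with common kernel `M` -/
theorem GE_forms {n : ℕ} (M : Submodule ℚ (VQ n)) :
    ∃ (s : ℕ) (c : Fin s → Fin n → ℚ), ∀ v : VQ n, v ∈ M ↔ ∀ b, ∑ p, c b p * v p = 0 := by
  classical
  let C := Module.finBasis ℚ (VQ n ⧸ M)
  let L : VQ n →ₗ[ℚ] (Fin (finrank ℚ (VQ n ⧸ M)) → ℚ) := C.equivFun.toLinearMap ∘ₗ M.mkQ
  refine ⟨finrank ℚ (VQ n ⧸ M), fun b p => L (Pi.single p 1) b, fun v => ?_⟩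
  have h1 : ∀ b, ∑ p, L (Pi.single p 1) b * v p = L v b := by
    intro b
    have h2 : v = ∑ p, v p • (Pi.single p (1 : ℚ) : VQ n) := by
      ext q
      rw [Finset.sum_apply]
      simp [Pi.single_apply]
    conv_rhs => rw [h2]
    rw [map_sum, Finset.sum_apply]
    apply Finset.sum_congr rfl
    intro p _
    rw [map_smul, Pi.smul_apply, smul_eq_mul, mul_comm]
  simp only [h1]
  constructor
  · intro hv b
    have h3 : M.mkQ v = 0 := by
      rw [Submodule.mkQ_apply, Submodule.Quotient.mk_eq_zero]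
      exact hv
    show C.equivFun (M.mkQ v) b = 0
    rw [h3, map_zero]
    rfl
  · intro h
    have h4 : C.equivFun (M.mkQ v) = 0 := by
      ext b
      exact h b
    have h5 : M.mkQ v = 0 := by
      rw [← C.equivFun.map_eq_zero_iff]
      exact h4
    rwa [Submodule.mkQ_apply, Submodule.Quotient.mk_eq_zero] at h5

theorem GE (hGL : GL_stmt) (hEXJ : UG.EXJ_stmt) (hLG : UG.LG_stmt) : GE_stmt := by
  intro n k 𝔢 W m hmono hbot htop hdown hgrp i hik hns
  classical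
  have hfil : ∀ X ∈ 𝔢, X ∈ fil W 1 := fun X hX => (mem_fil_one hbot).2 (hdown X hX)
  have hnil : ∀ X ∈ 𝔢, IsNilpotent X := fun X hX => fil_one_nil hbot htop (hfil X hX)
  suffices H : ∀ d j : ℕ, j + d = k → i ≤ j → ∃ g : VQ n → MQ n, RF g ∧
      Gen (fun u => (∃ X ∈ 𝔢, g u = IsNilpotent.exp X) ∧ g u *ᵥ (m *ᵥ u) - u ∈ W j) by
    exact H (k - i) i (by omega) le_rfl
  intro d
  induction d with
  | zero =>
    intro j hj _
    refine ⟨fun _ => 1, RF.const 1, Gen.of_forall fun u => ⟨⟨0, 𝔢.zero_mem, ?_⟩, ?_⟩⟩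
    · exact IsNilpotent.exp_zero.symm
    · have hj' : j = k := by omega
      rw [hj', htop]
      trivial
  | succ d ih =>
    intro j hj hij
    obtain ⟨g₁, hg₁, hG₁⟩ := ih (j + 1) (by omega) (by omega)
    have hw : RFv (fun u => g₁ u *ᵥ (m *ᵥ u)) := hg₁.mulVec ((RF.const m).mulVec RFv.id)
    obtain ⟨d₀, hd₀, G₀, hG₀⟩ := hw
    let B := Module.finBasis ℚ 𝔢
    obtain ⟨s, c, hc⟩ := GE_forms (W j)
    let r := finrank ℚ 𝔢
    let A : Fin s → Fin r → MvPolynomial (Fin n) ℚ := fun b a =>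
      ∑ p, ∑ q, MvPolynomial.C (c b p * (B a : MQ n) p q) * MvPolynomial.X q
    let bb : Fin s → MvPolynomial (Fin n) ℚ := fun b =>
      ∑ p, MvPolynomial.C (c b p) * (d₀ * MvPolynomial.X p - G₀ p)
    have hA : ∀ (u : VQ n) (b : Fin s) (a : Fin r),
        MvPolynomial.eval u (A b a) = ∑ p, c b p * ((B a : MQ n) *ᵥ u) p := by
      intro u b a
      simp only [A, map_sum, map_mul, MvPolynomial.eval_C, MvPolynomial.eval_X]
      apply Finset.sum_congr rfl
      intro p _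
      show _ = c b p * ∑ q, (B a : MQ n) p q * u q
      rw [Finset.mul_sum]
      apply Finset.sum_congr rfl
      intro q _
      ring
    have hb : ∀ (u : VQ n), MvPolynomial.eval u d₀ ≠ 0 → ∀ b : Fin s,
        MvPolynomial.eval u (bb b)
          = MvPolynomial.eval u d₀ * ∑ p, c b p * (u - g₁ u *ᵥ (m *ᵥ u)) p := by
      intro u hu b
      simp only [bb, map_sum, map_mul, map_sub, MvPolynomial.eval_C, MvPolynomial.eval_X]
      rw [Finset.mul_sum]
      apply Finset.sum_congr rfl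
      intro p _
      rw [hG₀ u hu p, Pi.sub_apply]
      ring
    have hAx : ∀ (u : VQ n) (x : Fin r → ℚ) (b : Fin s),
        ∑ a, MvPolynomial.eval u (A b a) * x a
          = ∑ p, c b p * (((∑ a, x a • (B a : MQ n)) : MQ n) *ᵥ u) p := by
      intro u x b
      rw [Matrix.sum_mulVec]
      simp only [hA, Finset.sum_apply, Matrix.smul_mulVec, Pi.smul_apply, smul_eq_mul,
        Finset.mul_sum, Finset.sum_mul]
      rw [Finset.sum_comm]
      apply Finset.sum_congr rfl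
      intro p _
      apply Finset.sum_congr rfl
      intro a _
      ring
    have hGL1 : ¬ Gen (fun u : VQ n => ¬ ∃ x : Fin r → ℚ, ∀ b,
        ∑ a, MvPolynomial.eval u (A b a) * x a = MvPolynomial.eval u (bb b)) := by
      intro hgen
      apply hns
      refine (hgen.and (hG₁.and (Gen.of_ne hd₀))).mono ?_
      rintro u ⟨h1, ⟨⟨X₂, hX₂, hg2⟩, hw1⟩, hu0⟩ ⟨X₁, hX₁, hX₁u⟩
      apply h1
      obtain ⟨Y, hY, hYe⟩ := hgrp X₁ hX₁ (-X₂) (𝔢.neg_mem hX₂)
      have h2 : IsNilpotent.exp Y *ᵥ (g₁ u *ᵥ (m *ᵥ u)) = IsNilpotent.exp X₁ *ᵥ (m *ᵥ u) := by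
        rw [← hYe, hg2, Matrix.mulVec_mulVec, mul_assoc,
          IsNilpotent.exp_neg_mul_exp_self (hnil X₂ hX₂), mul_one]
      have h3 : IsNilpotent.exp Y *ᵥ (g₁ u *ᵥ (m *ᵥ u)) - u ∈ W j := by
        rw [h2]
        exact hmono hij hX₁u
      have h4 := (GE_key hLG hmono (hfil Y hY) (hnil Y hY) hw1).1 h3
      refine ⟨fun a => MvPolynomial.eval u d₀ * B.repr ⟨Y, hY⟩ a, fun b => ?_⟩
      rw [hAx, hb u hu0]
      have h5 : (∑ a, (MvPolynomial.eval u d₀ * B.repr ⟨Y, hY⟩ a) • (B a : MQ n))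
          = MvPolynomial.eval u d₀ • Y := by
        have h6 := congrArg (Subtype.val) (B.sum_repr ⟨Y, hY⟩)
        simp only [mul_smul]
        rw [← Finset.smul_sum]
        congr 1
        rw [AddSubmonoidClass.coe_finsetSum] at h6
        exact h6
      rw [h5]
      have h7 := (hc _).1 h4 b
      have h8 : ∑ p, c b p * ((MvPolynomial.eval u d₀ • Y) *ᵥ u) p
          = MvPolynomial.eval u d₀ * (∑ p, c b p * (Y *ᵥ u - (u - g₁ u *ᵥ (m *ᵥ u))) p)
            + MvPolynomial.eval u d₀ * ∑ p, c b p * (u - g₁ u *ᵥ (m *ᵥ u)) p := by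
        rw [← mul_add, ← Finset.sum_add_distrib, Finset.mul_sum]
        apply Finset.sum_congr rfl
        intro p _
        rw [Matrix.smul_mulVec, Pi.smul_apply, smul_eq_mul, Pi.sub_apply]
        ring
      rw [h8, h7, mul_zero, zero_add]
    obtain ⟨x, dd, hdd, hx⟩ := hGL n s r A bb hGL1
    let Y : VQ n → MQ n := fun u =>
      ∑ a, (MvPolynomial.eval u (x a) / (MvPolynomial.eval u dd * MvPolynomial.eval u d₀))
        • (B a : MQ n)
    have hYm : ∀ u, Y u ∈ 𝔢 := fun u =>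
      Submodule.sum_mem _ fun a _ => Submodule.smul_mem _ _ (B a).2
    have hYRF : RF Y := by
      refine ⟨dd * d₀, mul_ne_zero hdd hd₀,
        fun p q => ∑ a, x a * MvPolynomial.C ((B a : MQ n) p q), fun u hu p q => ?_⟩
      rw [map_mul] at hu
      have hu1 := left_ne_zero_of_mul hu
      have hu2 := right_ne_zero_of_mul hu
      rw [map_sum, map_mul]
      simp only [Y, Matrix.sum_apply, Matrix.smul_apply, smul_eq_mul, map_mul,
        MvPolynomial.eval_C]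
      rw [Finset.mul_sum]
      apply Finset.sum_congr rfl
      intro a _
      field_simp
    have hYu : ∀ u, MvPolynomial.eval u dd ≠ 0 → MvPolynomial.eval u d₀ ≠ 0 →
        Y u *ᵥ u - (u - g₁ u *ᵥ (m *ᵥ u)) ∈ W j := by
      intro u h1 h2
      rw [hc]
      intro b
      have h3 := hx u b
      rw [hb u h2] at h3
      have h4 := hAx u (fun a => MvPolynomial.eval u (x a) /
        (MvPolynomial.eval u dd * MvPolynomial.eval u d₀)) b
      have h5 : ∑ a, MvPolynomial.eval u (A b a) * (MvPolynomial.eval u (x a) /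
          (MvPolynomial.eval u dd * MvPolynomial.eval u d₀))
          = (∑ a, MvPolynomial.eval u (A b a) * MvPolynomial.eval u (x a)) /
            (MvPolynomial.eval u dd * MvPolynomial.eval u d₀) := by
        rw [Finset.sum_div]
        apply Finset.sum_congr rfl
        intro a _
        rw [mul_div_assoc]
      rw [h5, h3] at h4
      have h6 : ∑ p, c b p * (Y u *ᵥ u - (u - g₁ u *ᵥ (m *ᵥ u))) p
          = ∑ p, c b p * (Y u *ᵥ u) p - ∑ p, c b p * (u - g₁ u *ᵥ (m *ᵥ u)) p := by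
        rw [← Finset.sum_sub_distrib]
        apply Finset.sum_congr rfl
        intro p _
        rw [Pi.sub_apply, mul_sub]
      rw [h6]
      have h7 : ∑ p, c b p * (Y u *ᵥ u) p = ∑ p, c b p * (u - g₁ u *ᵥ (m *ᵥ u)) p := by
        rw [← h4]
        field_simp
      rw [h7, sub_self]
    have hexp : ∀ u, IsNilpotent.exp (Y u)
        = ∑ i ∈ Finset.range k, ((i.factorial : ℚ)⁻¹) • Y u ^ i := by
      intro u
      apply IsNilpotent.exp_eq_sum
      have h1 := GE_pow_fil (hfil _ (hYm u)) k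
      rw [fil_bot hbot htop] at h1
      exact (Submodule.mem_bot ℚ).1 h1
    have hexpRF : RF (fun u => IsNilpotent.exp (Y u)) := by
      simp only [hexp]
      exact RF.sum _ _ fun i _ => (hYRF.pow i).smul _
    refine ⟨fun u => IsNilpotent.exp (Y u) * g₁ u, hexpRF.mul hg₁, ?_⟩
    refine (hG₁.and ((Gen.of_ne hdd).and (Gen.of_ne hd₀))).mono ?_
    rintro u ⟨⟨⟨X₂, hX₂, hg2⟩, hw1⟩, hu1, hu0⟩
    constructor
    · obtain ⟨Z, hZ, hZe⟩ := hgrp (Y u) (hYm u) X₂ hX₂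
      exact ⟨Z, hZ, by show IsNilpotent.exp (Y u) * g₁ u = _; rw [hg2, hZe]⟩
    · show (IsNilpotent.exp (Y u) * g₁ u) *ᵥ (m *ᵥ u) - u ∈ W j
      rw [← Matrix.mulVec_mulVec]
      exact (GE_key hLG hmono (hfil _ (hYm u)) (hnil _ (hYm u)) hw1).2 (hYu u hu1 hu0)

end Pool.Agent.BS
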