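import Pool.Agent.helper73.BS.Spec2

/-!
# bs:NE (neatness)
-/

set_option autoImplicit false

namespace Pool.Agent.BS

open Matrix Module Pool.Agent.UG Pool.Agent.H48SL Pool.Agent.SHL

/-- eigenvalues of integer matrices are integral -/
theorem NE_int {n : ℕ} (A : Matrix (Fin n) (Fin n) ℤ) (c : KB) (w : Fin n → KB) (hw : w ≠ 0)
    (h : A.map (algebraMap ℤ KB) *ᵥ w = c • w) : IsIntegral ℤ c := by
  have h1 : (Matrix.scalar (Fin n) c - A.map (algebraMap ℤ KB)).det = 0 := by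
    rw [← Matrix.exists_mulVec_eq_zero_iff]
    refine ⟨w, hw, ?_⟩
    rw [Matrix.sub_mulVec, h, Matrix.scalar_apply, Matrix.diagonal_const_mulVec]
    exact sub_self _
  refine ⟨A.charpoly, A.charpoly_monic, ?_⟩
  rw [Polynomial.eval₂_eq_eval_map, ← Matrix.charpoly_map, Matrix.eval_charpoly]
  exact h1

theorem NE_key {n : ℕ} (g : SLZ n)
    (hg : ∀ i j, (3 : ℤ) ∣ (g : Matrix (Fin n) (Fin n) ℤ) i j - (1 : Matrix (Fin n) (Fin n) ℤ) i j)
    (l : KB) (w : Fin n → KB) (hw : w ≠ 0) (h : (qg g).map (algebraMap ℚ KB) *ᵥ w = l • w) :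
    IsIntegral ℤ ((l - 1) / 3) := by
  choose A hA using hg
  refine NE_int (Matrix.of A) _ w hw ?_
  have h3 : (3 : KB) ≠ 0 := by norm_num
  have h1 : (qg g).map (algebraMap ℚ KB) = 1 + (3 : KB) • (Matrix.of A).map (algebraMap ℤ KB) := by
    ext i j
    rw [Matrix.map_apply, qg_apply, Matrix.add_apply, Matrix.smul_apply, Matrix.map_apply,
      Matrix.of_apply, smul_eq_mul]
    have h2 := hA i j
    have h4 : (g : Matrix (Fin n) (Fin n) ℤ) i j = (1 : Matrix (Fin n) (Fin n) ℤ) i j + 3 * A i j := by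
      rw [← h2]; ring
    rw [h4]
    by_cases hij : i = j
    · subst hij
      simp
    · simp [hij]
  rw [h1, Matrix.add_mulVec, Matrix.one_mulVec, Matrix.smul_mulVec] at h
  have h5 : (3 : KB) • ((Matrix.of A).map (algebraMap ℤ KB) *ᵥ w) = (l - 1) • w := by
    rw [sub_smul, one_smul, ← h]
    abel
  have h6 : (Matrix.of A).map (algebraMap ℤ KB) *ᵥ w
      = (3 : KB)⁻¹ • ((3 : KB) • ((Matrix.of A).map (algebraMap ℤ KB) *ᵥ w)) := by
    rw [smul_smul, inv_mul_cancel₀ h3, one_smul]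
  rw [h6, h5, smul_smul]
  congr 1
  rw [div_eq_mul_inv, mul_comm]

theorem NE_inv {n : ℕ} (g : SLZ n)
    (hg : ∀ i j, (3 : ℤ) ∣ (g : Matrix (Fin n) (Fin n) ℤ) i j - (1 : Matrix (Fin n) (Fin n) ℤ) i j)
    (i j : Fin n) : (3 : ℤ) ∣ ((g⁻¹ : SLZ n) : Matrix (Fin n) (Fin n) ℤ) i j
      - (1 : Matrix (Fin n) (Fin n) ℤ) i j := by
  have h1 : ((g⁻¹ : SLZ n) : Matrix (Fin n) (Fin n) ℤ) * (g : Matrix (Fin n) (Fin n) ℤ) = 1 := by
    rw [← Matrix.SpecialLinearGroup.coe_mul, inv_mul_cancel, Matrix.SpecialLinearGroup.coe_one]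
  have h2 : ((g⁻¹ : SLZ n) : Matrix (Fin n) (Fin n) ℤ) - 1
      = -(((g⁻¹ : SLZ n) : Matrix (Fin n) (Fin n) ℤ) * ((g : Matrix (Fin n) (Fin n) ℤ) - 1)) := by
    rw [mul_sub, h1, mul_one, neg_sub]
  rw [← Matrix.sub_apply, h2, Matrix.neg_apply, dvd_neg, Matrix.mul_apply]
  exact Finset.dvd_sum fun k _ => dvd_mul_of_dvd_right (hg k j) _

theorem NE_int_of {z : KB} (h : IsIntegral ℤ ((z - 1) / 3)) : IsIntegral ℤ z := by
  have h1 : z = 1 + 3 * ((z - 1) / 3) := by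
    have h3 : (3 : KB) ≠ 0 := by norm_num
    field_simp
    ring
  rw [h1]
  have h2 : IsIntegral ℤ (3 : KB) := by
    have := isIntegral_algebraMap (R := ℤ) (A := KB) (x := 3)
    simpa using this
  exact isIntegral_one.add (h2.mul h)

theorem NE_mul {z w : KB} (hz : IsIntegral ℤ ((z - 1) / 3)) (hw : IsIntegral ℤ ((w - 1) / 3)) :
    IsIntegral ℤ ((z * w - 1) / 3) := by
  have h1 : (z * w - 1) / 3 = z * ((w - 1) / 3) + (z - 1) / 3 := by ring
  rw [h1]
  exact ((NE_int_of hz).mul hw).add hz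

theorem NE_pow {z : KB} (hz : IsIntegral ℤ ((z - 1) / 3)) (k : ℕ) :
    IsIntegral ℤ ((z ^ k - 1) / 3) := by
  induction k with
  | zero => rw [pow_zero, sub_self, zero_div]; exact isIntegral_zero
  | succ k ih => rw [pow_succ]; exact NE_mul ih hz

/-- the group of units congruent to `1` modulo `3` -/
def NE_Lam : Subgroup KBˣ where
  carrier := {z | IsIntegral ℤ (((z : KB) - 1) / 3) ∧ IsIntegral ℤ ((((z⁻¹ : KBˣ) : KB) - 1) / 3)}
  one_mem' := by
    constructor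
    · rw [Units.val_one, sub_self, zero_div]; exact isIntegral_zero
    · rw [inv_one, Units.val_one, sub_self, zero_div]; exact isIntegral_zero
  mul_mem' := by
    rintro a b ⟨ha, ha'⟩ ⟨hb, hb'⟩
    constructor
    · rw [Units.val_mul]; exact NE_mul ha hb
    · rw [mul_inv, Units.val_mul]; exact NE_mul ha' hb'
  inv_mem' := by
    rintro a ⟨ha, ha'⟩
    refine ⟨ha', ?_⟩
    rw [inv_inv]
    exact ha

theorem NE_prim (r : ℕ) (z : KB) (hz : IsPrimitiveRoot z (r + 1)) (hr : 1 ≤ r)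
    (h : IsIntegral ℤ ((z - 1) / 3)) : False := by
  have h1 := hz.prod_one_sub_pow_eq_order
  have h2 : IsIntegral ℤ (∏ k ∈ Finset.range r, ((1 - z ^ (k + 1)) / 3)) := by
    refine IsIntegral.prod _ fun k _ => ?_
    have h3 : (1 - z ^ (k + 1)) / 3 = -((z ^ (k + 1) - 1) / 3) := by ring
    rw [h3]
    exact (NE_pow h (k + 1)).neg
  rw [Finset.prod_div_distrib, h1, Finset.prod_const, Finset.card_range] at h2
  have h4 : ((r : KB) + 1) / 3 ^ r = algebraMap ℚ KB (((r : ℚ) + 1) / 3 ^ r) := by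
    simp
  rw [h4, isIntegral_algebraMap_iff (algebraMap ℚ KB).injective, IsIntegrallyClosed.isIntegral_iff] at h2
  obtain ⟨y, hy⟩ := h2
  have h5 : (y : ℚ) * 3 ^ r = (r : ℚ) + 1 := by
    have h6 : (algebraMap ℤ ℚ) y = (y : ℚ) := rfl
    rw [h6] at hy
    rw [hy]
    field_simp
  have h7 : y * 3 ^ r = (r : ℤ) + 1 := by exact_mod_cast h5
  have h8 : 1 ≤ y := by
    by_contra h9
    have h10 : y ≤ 0 := by omega
    have h11 : y * 3 ^ r ≤ 0 := mul_nonpos_of_nonpos_of_nonneg h10 (by positivity)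
    omega
  have h12 : (3 : ℤ) ^ r ≤ (r : ℤ) + 1 := by
    rw [← h7]
    have h13 : (0 : ℤ) ≤ 3 ^ r := by positivity
    nlinarith
  have h14 := one_add_mul_le_pow (show (-2 : ℤ) ≤ 2 by norm_num) r
  have h15 : (1 : ℤ) + 2 = 3 := by norm_num
  rw [h15] at h14
  have h16 : (1 : ℤ) ≤ (r : ℤ) := by exact_mod_cast hr
  linarith

theorem NE : NE_stmt := by
  intro n g hg
  refine ⟨NE_Lam, ?_, ?_⟩
  · rintro z ⟨hz, -⟩ m hm hzm
    by_contra hne
    have hfin : IsOfFinOrder z := isOfFinOrder_iff_pow_eq_one.2 ⟨m, hm, hzm⟩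
    have h1 : 0 < orderOf z := hfin.orderOf_pos
    have h2 : orderOf z ≠ 1 := fun h => hne (orderOf_eq_one_iff.1 h)
    obtain ⟨r, hr⟩ : ∃ r, orderOf z = r + 1 := ⟨orderOf z - 1, by omega⟩
    have h3 : IsPrimitiveRoot (z : KB) (r + 1) := by
      rw [← hr]
      exact (IsPrimitiveRoot.coe_units_iff.2 (IsPrimitiveRoot.orderOf z))
    exact NE_prim r z h3 (by omega) hz
  · intro l w hw h
    have h1 : (qg g⁻¹).map (algebraMap ℚ KB) *ᵥ (l • w) = w := by
      rw [← h, Matrix.mulVec_mulVec, ← Matrix.map_mul, qg_inv_mul, Matrix.map_one _ (map_zero _)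
        (map_one _), Matrix.one_mulVec]
    have hl : l ≠ 0 := by
      rintro rfl
      rw [zero_smul, Matrix.mulVec_zero] at h1
      exact hw h1.symm
    have h2 : (qg g⁻¹).map (algebraMap ℚ KB) *ᵥ w = l⁻¹ • w := by
      rw [Matrix.mulVec_smul] at h1
      conv_rhs => rw [← h1]
      rw [smul_smul, inv_mul_cancel₀ hl, one_smul]
    refine ⟨Units.mk0 l hl, ⟨?_, ?_⟩, rfl⟩
    · exact NE_key g hg l w hw h
    · have h3 := NE_key g⁻¹ (NE_inv g hg) l⁻¹ w hw h2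
      rw [Units.val_inv_eq_inv_val]
      exact h3

end Pool.Agent.BS
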