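import Pool.Agent.helper50.BS.SpecT

/-! # Module bs:TA1 -/

set_option autoImplicit false

open Finset

open scoped Classical

noncomputable section

namespace Pool.Agent.BS

theorem TA1_ind (w p q p' q' : Prop) [Decidable (w ∧ ¬ (p ∨ p' ↔ q ∨ q'))]
    [Decidable (w ∧ ¬ (p ↔ q))] [Decidable (w ∧ ¬ (p' ↔ q'))] (h1 : ¬ (p ∧ p')) (h2 : ¬ (q ∧ q')) (h3 : ¬ (p ∧ q'))
    (h4 : ¬ (q ∧ p')) :
    (if w ∧ ¬ (p ∨ p' ↔ q ∨ q') then 1 else 0 : ℕ) =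
      (if w ∧ ¬ (p ↔ q) then 1 else 0) + (if w ∧ ¬ (p' ↔ q') then 1 else 0) := by
  by_cases hw : w <;> by_cases hp : p <;> by_cases hq : q <;> by_cases hp' : p' <;>
    by_cases hq' : q' <;> simp_all

/-- TA1 -/
theorem TA1 : TA1_stmt := by
  intro g
  refine ⟨?_, ?_⟩
  · intro a b h
    rcases a with v | e <;> rcases b with v' | e'
    · exact h
    · exact h
    · exact h
    · exact h
  · intro W A B hT
    have hne : ∀ z ∈ A, z ∉ B := fun z hz hz' => hT ⟨z, hz, z, hz', Or.inl rfl⟩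
    have ha1 : ∀ v e, e ∈ g.E → (v = g.s e ∨ v = g.t e) → ¬ (Sum.inl v ∈ A ∧ Sum.inr e ∈ B) :=
      fun v e he hv h => hT ⟨_, h.1, _, h.2, Or.inr ⟨he, hv⟩⟩
    have ha2 : ∀ v e, e ∈ g.E → (v = g.s e ∨ v = g.t e) → ¬ (Sum.inr e ∈ A ∧ Sum.inl v ∈ B) :=
      fun v e he hv h => hT ⟨_, h.1, _, h.2, Or.inr ⟨he, hv⟩⟩
    unfold IG.cW
    rw [← Finset.sum_add_distrib]
    refine Finset.sum_congr rfl fun e he => ?_
    simp only [Finset.mem_union]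
    rw [TA1_ind _ _ _ _ _ (fun h => hne _ h.1 h.2) (fun h => hne _ h.1 h.2)
      (ha1 (g.s e) e he (Or.inl rfl)) (ha2 (g.s e) e he (Or.inl rfl)),
      TA1_ind _ _ _ _ _ (fun h => hne _ h.1 h.2) (fun h => hne _ h.1 h.2)
      (ha1 (g.t e) e he (Or.inr rfl)) (ha2 (g.t e) e he (Or.inr rfl))]
    ring

end Pool.Agent.BS
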